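import Pool.Agent.Lib.MP_0cde51_al.Main

/-! The class of kernels of ordinary representations of connected pro-Lie groups is not closed
under passing to closed subgroups. -/

open Pool.Agent.Lib.MP_0cde51_al

universe u v

theorem Pool.Agent.Results.MP_0cde51_al.NotClosed.result :
    ∃ (G : Type) (_ : Group G) (_ : TopologicalSpace G) (_ : IsTopologicalGroup G),
      IsProLie.{0, 0} G ∧ ConnectedSpace G ∧
      ∃ H : Subgroup (KO G), IsClosed (H : Set (KO G)) ∧
        ∀ (G₁ : Type u) [Group G₁] [TopologicalSpace G₁] [IsTopologicalGroup G₁],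
          IsProLie.{u, v} G₁ → ConnectedSpace G₁ → IsEmpty (ContinuousMulEquiv (KO G₁) H) := by
  obtain ⟨G, _, _, _, h1, h2, H, h3, h4⟩ := exists_counterexample
  exact ⟨G, _, _, _, h1, h2, H, h3, fun G₁ _ _ _ h5 _ =>
    ⟨fun e => h5.not_good (Good.of_equiv e h4)⟩⟩
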